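import Pool.Agent.T5h70.NH.Stm

/-!
# Tasks A5, A6 of project NH
-/

set_option autoImplicit false

open Matrix MeasureTheory Filter Topology
open scoped BigOperators ComplexConjugate ComplexOrder

namespace Pool.Agent.T2h97.NH

open Pool.Agent.V11219.MomentOp Pool.Agent.T5h70.NH

lemma map_right {n : Type} [Fintype n] [DecidableEq n] (g : UU n) :
    Measure.map (· * g) (haarU n) = haarU n := by
  haveI : IsProbabilityMeasure (Measure.map (· * g) (haarU n)) :=
    Measure.isProbabilityMeasure_map (measurable_mul_const g).aemeasurable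
  exact Measure.isHaarMeasure_eq_of_isProbabilityMeasure _ _

lemma shift_right {n : Type} [Fintype n] [DecidableEq n] (g : UU n) (f : UU n → ℂ) :
    ∫ V, f (V * g) ∂(haarU n) = ∫ V, f V ∂(haarU n) := by
  haveI : (haarU n).IsMulRightInvariant := ⟨fun g => map_right g⟩
  exact integral_mul_right_eq_self f g

lemma conj_inv {n : Type} [Fintype n] [DecidableEq n] (g h : UU n) (f : UU n → ℂ) :
    ∫ V, f (g * V * h) ∂(haarU n) = ∫ V, f V ∂(haarU n) := by
  rw [shift g (fun V => f (V * h))]
  exact shift_right h f

/-- the permutation matrix as an element of the unitary group -/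
noncomputable def pm {d : ℕ} (σ : Equiv.Perm (Fin d)) : Mat d :=
  Matrix.of fun i j => if σ i = j then 1 else 0

lemma pm_mem {d : ℕ} (σ : Equiv.Perm (Fin d)) : pm σ ∈ Matrix.unitaryGroup (Fin d) ℂ := by
  rw [Matrix.mem_unitaryGroup_iff]
  ext i j
  simp only [pm, Matrix.star_eq_conjTranspose, Matrix.mul_apply, Matrix.of_apply,
    Matrix.conjTranspose_apply, Matrix.one_apply, apply_ite star, star_one, star_zero, mul_ite,
    mul_one, mul_zero, ite_mul, one_mul, zero_mul]
  rw [Finset.sum_eq_single (σ i)]
  · by_cases h : i = j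
    · simp [h]
    · have : σ j ≠ σ i := fun h' => h (σ.injective h').symm
      simp [h, this]
  · intro k _ hk
    have : ¬ σ i = k := fun h => hk h.symm
    simp [this]
  · simp

lemma pm_conj {d : ℕ} (σ : Equiv.Perm (Fin d)) (V : Mat d) (i j : Fin d) :
    (pm σ * V * star (pm σ)) i j = V (σ i) (σ j) := by
  simp only [pm, Matrix.star_eq_conjTranspose, Matrix.mul_apply, Matrix.of_apply,
    Matrix.conjTranspose_apply, apply_ite star, star_one, star_zero, mul_ite,
    mul_one, mul_zero, ite_mul, one_mul, zero_mul]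
  simp

lemma gI_perm (d t : ℕ) (x : Fin d → ℂ) (σ : Equiv.Perm (Fin d)) :
    gI d t (fun i => x (σ i)) = gI d t x := by
  unfold gI
  have h := conj_inv (n := Fin d) ⟨pm σ, pm_mem σ⟩ (star ⟨pm σ, pm_mem σ⟩ : UU (Fin d))
    (fun V => (∑ i, x (σ i) * (V : Mat d) i i) ^ t * (conj (trace (V : Mat d))) ^ t)
  rw [← h]
  refine integral_congr_ae (Filter.Eventually.of_forall fun V => ?_)
  have e : ∀ i, ((⟨pm σ, pm_mem σ⟩ * V * (star ⟨pm σ, pm_mem σ⟩ : UU (Fin d)) : UU (Fin d)) :
      Mat d) i i = (V : Mat d) (σ i) (σ i) := fun i => pm_conj σ (V : Mat d) i i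
  simp only [Matrix.trace, Matrix.diag_apply, e]
  rw [Equiv.sum_comp σ (fun i => x i * (V : Mat d) i i),
    Equiv.sum_comp σ (fun i => (V : Mat d) i i)]

lemma gI_cont (d t : ℕ) : Continuous fun x : Fin d → ℂ => gI d t x := by
  unfold gI
  have hc : Continuous (Function.uncurry fun (x : Fin d → ℂ) (V : UU (Fin d)) =>
      (∑ i, x i * (V : Mat d) i i) ^ t * (conj (trace (V : Mat d))) ^ t) := by
    have hV : Continuous fun p : (Fin d → ℂ) × UU (Fin d) => (p.2 : Mat d) :=
      continuous_subtype_val.comp continuous_snd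
    have h1 : Continuous fun p : (Fin d → ℂ) × UU (Fin d) => ∑ i, p.1 i * (p.2 : Mat d) i i := by
      refine continuous_finsetSum _ fun i _ => ?_
      exact ((continuous_apply i).comp continuous_fst).mul ((continuous_apply_apply i i).comp hV)
    have h2 : Continuous fun p : (Fin d → ℂ) × UU (Fin d) => trace (p.2 : Mat d) := by
      unfold Matrix.trace
      refine continuous_finsetSum _ fun i _ => ?_
      exact (continuous_apply_apply i i).comp hV
    exact (h1.pow t).mul ((Complex.continuous_conj.comp h2).pow t)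
  have := continuous_parametric_integral_of_continuous (μ := haarU (Fin d)) hc isCompact_univ
  simpa using this

theorem t_A5 (d : ℕ) (h : A4 d) : A5 d := by
  intro t x hx hs
  rcases Nat.eq_zero_or_pos d with hd | hd
  · subst hd
    have : (fun i => (x i : ℂ)) = 1 := Subsingleton.elim _ _
    rw [this]
  -- sort
  obtain ⟨σ, hσ⟩ : ∃ σ : Equiv.Perm (Fin d), Antitone (x ∘ σ) := by
    refine ⟨Tuple.sort (fun i => - x i), ?_⟩
    have := Tuple.monotone_sort (fun i => - x i)
    intro a b hab
    have h1 := this hab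
    simp only [Function.comp] at h1 ⊢
    linarith
  rw [← gI_perm d t (fun i => (x i : ℂ)) σ]
  -- approximation
  set w : Fin d → ℝ := fun i => (d : ℝ) - (i : ℕ) with hw
  have hwpos : ∀ i, 0 < w i := by
    intro i
    have : ((i : ℕ) : ℝ) < d := by exact_mod_cast i.2
    simp only [hw]; linarith
  have hwanti : StrictAnti w := by
    intro i j hij
    have : ((i : ℕ) : ℝ) < ((j : ℕ) : ℝ) := by exact_mod_cast hij
    simp only [hw]; linarith
  have hsum : ∑ i, x (σ i) = d := by rw [Equiv.sum_comp σ x]; exact hs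
  have hdpos : (0 : ℝ) < d := by exact_mod_cast hd
  have hW : 0 ≤ ∑ i, w i := Finset.sum_nonneg fun i _ => (hwpos i).le
  set y : ℝ → Fin d → ℝ := fun ε i => (x (σ i) + ε * w i) * (d / (d + ε * ∑ i, w i)) with hy
  have hlim : Tendsto (fun ε : ℝ => (gI d t (fun i => (y ε i : ℂ))).re) (𝓝[>] 0)
      (𝓝 (gI d t (fun i => (x (σ i) : ℂ))).re) := by
    have h1 : ContinuousAt (fun ε : ℝ => (gI d t (fun i => (y ε i : ℂ))).re) 0 := by
      refine (Complex.continuous_re.continuousAt).comp ?_
      refine ((gI_cont d t).continuousAt).comp ?_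
      rw [continuousAt_pi]
      intro i
      refine Complex.continuous_ofReal.continuousAt.comp ?_
      simp only [hy]
      refine ContinuousAt.mul (by fun_prop) ?_
      refine ContinuousAt.div (by fun_prop) (by fun_prop) ?_
      simp [hdpos.ne']
    have h2 : (fun i => (y 0 i : ℂ)) = fun i => (x (σ i) : ℂ) := by
      funext i
      simp only [hy, zero_mul, add_zero]
      rw [div_self hdpos.ne', mul_one]
    have h3 := h1.tendsto
    simp only [h2] at h3
    exact h3.mono_left nhdsWithin_le_nhds
  refine le_of_tendsto hlim ?_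
  filter_upwards [self_mem_nhdsWithin] with ε hε
  have hε' : (0 : ℝ) < ε := hε
  have hden : 0 < (d : ℝ) + ε * ∑ i, w i := by positivity
  apply h t (y ε)
  · intro i j hij
    simp only [hy]
    refine mul_lt_mul_of_pos_right ?_ (by positivity)
    have h1 : x (σ j) ≤ x (σ i) := hσ hij.le
    have h2 := mul_lt_mul_of_pos_left (hwanti hij) hε'
    linarith
  · intro i
    simp only [hy]
    have := hx (σ i)
    have := hwpos i
    positivity
  · simp only [hy]
    rw [← Finset.sum_mul, Finset.sum_add_distrib, hsum, ← Finset.mul_sum]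
    field_simp

theorem t_A6 (d : ℕ) (h : A5 d) : A6 d := by
  intro t Y hY htr
  have hH : Y.IsHermitian := hY.1
  set x : Fin d → ℝ := hH.eigenvalues with hx
  set U : UU (Fin d) := hH.eigenvectorUnitary with hU
  have hspec : Y = (U : Mat d) * Matrix.diagonal (fun i => (x i : ℂ)) * star (U : Mat d) := by
    have := hH.spectral_theorem
    rw [Unitary.conjStarAlgAut_apply] at this
    exact this
  have hx0 : ∀ i, 0 ≤ x i := fun i => hY.eigenvalues_nonneg i
  have hUU : star (U : Mat d) * (U : Mat d) = 1 := by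
    have := U.2
    exact (Matrix.mem_unitaryGroup_iff'.1 this)
  have hsum : ∑ i, x i = d := by
    have h1 : trace Y = ∑ i, (x i : ℂ) := by
      rw [hspec, Matrix.trace_mul_comm, ← Matrix.mul_assoc, hUU, Matrix.one_mul,
        Matrix.trace_diagonal]
    rw [htr] at h1
    have h2 : ((d : ℝ) : ℂ) = ((∑ i, x i : ℝ) : ℂ) := by
      push_cast
      exact h1
    exact (Complex.ofReal_injective h2).symm
  have key : gM d t Y = gI d t (fun i => (x i : ℂ)) := by
    unfold gM gI
    have h1 := conj_inv (n := Fin d) (star U) U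
      (fun V => (∑ i, (x i : ℂ) * (V : Mat d) i i) ^ t * (conj (trace (V : Mat d))) ^ t)
    rw [← h1]
    refine integral_congr_ae (Filter.Eventually.of_forall fun V => ?_)
    have e1 : ((star U * V * U : UU (Fin d)) : Mat d) = star (U : Mat d) * (V : Mat d) * (U : Mat d) :=
      rfl
    have e2 : trace (star (U : Mat d) * (V : Mat d) * (U : Mat d)) = trace (V : Mat d) := by
      have hUU' : (U : Mat d) * star (U : Mat d) = 1 := Matrix.mem_unitaryGroup_iff.1 U.2
      rw [Matrix.trace_mul_comm, ← Matrix.mul_assoc, hUU', Matrix.one_mul]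
    have e3 : trace (Y * (V : Mat d)) =
        ∑ i, (x i : ℂ) * (star (U : Mat d) * (V : Mat d) * (U : Mat d)) i i := by
      have : trace (Y * (V : Mat d)) =
          trace (Matrix.diagonal (fun i => (x i : ℂ)) * (star (U : Mat d) * (V : Mat d) * (U : Mat d))) := by
        conv_lhs => rw [hspec]
        rw [Matrix.mul_assoc, Matrix.mul_assoc, Matrix.trace_mul_comm]
        simp only [Matrix.mul_assoc]
      rw [this]
      simp [Matrix.trace, Matrix.diagonal_mul]
    simp only [e1, e2, e3]
  rw [key]
  exact h t x hx0 hsum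

end Pool.Agent.T2h97.NH
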